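import Pool.Agent.H97.PK.Targets

set_option autoImplicit false

/-!
# The weighted Gaussian functional decreases under contractions
-/

open MeasureTheory Set Metric Real
open scoped ENNReal

namespace Pool.Agent.H50.PK

open Pool.Agent.H97.PK

/-- the functional. -/
noncomputable def GF {D : ℕ} {ι : Type} (P : ι → E D) (l : ℝ) (c : ι → ℝ) (Y : E D) : ℝ≥0∞ :=
  ⨆ i, ENNReal.ofReal (exp (c i - l * ‖Y - P i‖ ^ 2))

theorem GF_meas {D : ℕ} {ι : Type} [Fintype ι] (P : ι → E D) (l : ℝ) (c : ι → ℝ) :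
    Measurable (GF P l c) := by
  refine Measurable.iSup ?_
  intro i
  refine ENNReal.measurable_ofReal.comp ?_
  exact Continuous.measurable (by fun_prop)

theorem GF_lt_top {D : ℕ} {ι : Type} [Fintype ι] (P : ι → E D) (l : ℝ) (c : ι → ℝ) (Y : E D) :
    GF P l c Y < ⊤ := by
  rcases isEmpty_or_nonempty ι with h | h
  · simp [GF]
  · obtain ⟨i, hi⟩ := exists_eq_ciSup_of_finite
      (f := fun i => ENNReal.ofReal (exp (c i - l * ‖Y - P i‖ ^ 2)))
    rw [GF, ← hi]
    exact ENNReal.ofReal_lt_top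

theorem le_GF {D : ℕ} {ι : Type} [Fintype ι] (P : ι → E D) (l : ℝ) (c : ι → ℝ) (Y : E D) (t : ℝ)
    (ht : 0 < t) : t ≤ (GF P l c Y).toReal ↔ ∃ i, t ≤ exp (c i - l * ‖Y - P i‖ ^ 2) := by
  rw [← ENNReal.ofReal_le_iff_le_toReal (GF_lt_top P l c Y).ne]
  constructor
  · intro h
    rcases isEmpty_or_nonempty ι with h' | h'
    · simp only [GF, iSup_of_empty, bot_eq_zero', nonpos_iff_eq_zero, ENNReal.ofReal_eq_zero] at h
      linarith
    · obtain ⟨i, hi⟩ := exists_eq_ciSup_of_finite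
        (f := fun i => ENNReal.ofReal (exp (c i - l * ‖Y - P i‖ ^ 2)))
      rw [GF, ← hi] at h
      exact ⟨i, (ENNReal.ofReal_le_ofReal_iff (exp_pos _).le).1 h⟩
  · rintro ⟨i, hi⟩
    exact (ENNReal.ofReal_le_ofReal hi).trans (le_iSup (fun i => ENNReal.ofReal (exp (c i - l * ‖Y - P i‖ ^ 2))) i)

theorem level_ball {D : ℕ} (P : E D) (l : ℝ) (hl : 0 < l) (c t : ℝ) (ht : 0 < t) (Y : E D) :
    t ≤ exp (c - l * ‖Y - P‖ ^ 2) ↔
      Y ∈ closedBall P (if 0 ≤ (c - log t) / l then √((c - log t) / l) else -1) := by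
  rw [← log_le_iff_le_exp ht, mem_closedBall, dist_eq_norm]
  have h1 : log t ≤ c - l * ‖Y - P‖ ^ 2 ↔ ‖Y - P‖ ^ 2 ≤ (c - log t) / l := by
    rw [le_div_iff₀ hl]
    constructor <;> intro h <;> linarith
  rw [h1]
  split_ifs with h
  · rw [Real.le_sqrt (norm_nonneg _) h]
  · constructor
    · intro h2
      exact absurd ((sq_nonneg _).trans h2) h
    · intro h2
      linarith [norm_nonneg (Y - P)]

theorem GF_layer {D : ℕ} {ι : Type} [Fintype ι] (P : ι → E D) (l : ℝ) (hl : 0 < l) (c : ι → ℝ) :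
    ∫⁻ Y, GF P l c Y = ∫⁻ t in Ioi (0 : ℝ),
      vU P (fun i => if 0 ≤ (c i - log t) / l then √((c i - log t) / l) else -1) := by
  have h1 : ∫⁻ Y, GF P l c Y = ∫⁻ Y, ENNReal.ofReal ((GF P l c Y).toReal) := by
    refine lintegral_congr ?_
    intro Y
    rw [ENNReal.ofReal_toReal (GF_lt_top P l c Y).ne]
  rw [h1, lintegral_eq_lintegral_meas_le volume (Filter.Eventually.of_forall fun Y => ENNReal.toReal_nonneg)
    (GF_meas P l c).ennreal_toReal.aemeasurable]
  refine setLIntegral_congr_fun measurableSet_Ioi ?_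
  intro t ht
  have ht' : 0 < t := ht
  show volume {Y | t ≤ (GF P l c Y).toReal} = _
  unfold vU
  congr 1
  ext Y
  rw [mem_iUnion]
  exact (le_GF P l c Y t ht').trans (exists_congr fun i => level_ball (P i) l hl (c i) t ht' Y)

theorem gauss_fin {d : ℕ} (l : ℝ) (hl : 0 < l) :
    ∫⁻ z : E d, ENNReal.ofReal (exp (-(l * ‖z‖ ^ 2))) < ⊤ := by
  have h := (GaussianFourier.integrable_cexp_neg_mul_sq_norm_add (V := E d) (b := (l : ℂ))
    (by simpa using hl) 0 0).norm
  have h2 : Integrable (fun z : E d => exp (-(l * ‖z‖ ^ 2))) := by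
    refine h.congr (Filter.Eventually.of_forall ?_)
    intro z
    show ‖Complex.exp _‖ = _
    rw [Complex.norm_exp]
    congr 1
    simp
    left
    norm_cast
  exact h2.lintegral_lt_top

theorem gauss_pos {d : ℕ} (l : ℝ) :
    ∫⁻ z : E d, ENNReal.ofReal (exp (-(l * ‖z‖ ^ 2))) ≠ 0 := by
  intro h
  have hm : Measurable (fun z : E d => ENNReal.ofReal (exp (-(l * ‖z‖ ^ 2)))) :=
    ENNReal.measurable_ofReal.comp (Continuous.measurable (by fun_prop))
  rw [lintegral_eq_zero_iff hm] at h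
  have h2 : ∀ᵐ z : E d, False := by
    filter_upwards [h] with z hz
    have : 0 < exp (-(l * ‖z‖ ^ 2)) := exp_pos _
    simp only [Pi.zero_apply, ENNReal.ofReal_eq_zero] at hz
    linarith
  simp only [Filter.eventually_false_iff_eq_bot, ae_eq_bot] at h2
  have h3 := (isOpen_univ : IsOpen (univ : Set (E d))).measure_pos volume ⟨0, mem_univ _⟩
  rw [h2] at h3
  simp at h3

theorem GF_fub (hFUB : T_FUB) {d : ℕ} {ι : Type} [Fintype ι] (p : ι → E d) (l : ℝ) (c : ι → ℝ) :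
    ∫⁻ Y : E (d + d), GF (fun i => emb d (p i)) l c Y =
      (∫⁻ z : E d, ENNReal.ofReal (exp (-(l * ‖z‖ ^ 2)))) * ∫⁻ y : E d, GF p l c y := by
  obtain ⟨h1, h2⟩ := hFUB d d
  rw [h1 _ (GF_meas _ l c)]
  have h3 : ∀ z y : E d, GF (fun i => emb d (p i)) l c (pr y z) =
      ENNReal.ofReal (exp (-(l * ‖z‖ ^ 2))) * GF p l c y := by
    intro z y
    rw [GF, GF, ENNReal.mul_iSup]
    refine iSup_congr ?_
    intro i
    rw [h2 y (p i) z, ← ENNReal.ofReal_mul (exp_pos _).le, ← exp_add]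
    congr 2
    ring
  simp_rw [h3]
  have h4 : ∀ z : E d, ∫⁻ y : E d, ENNReal.ofReal (exp (-(l * ‖z‖ ^ 2))) * GF p l c y =
      ENNReal.ofReal (exp (-(l * ‖z‖ ^ 2))) * ∫⁻ y : E d, GF p l c y := by
    intro z
    exact lintegral_const_mul _ (GF_meas p l c)
  simp_rw [h4]
  exact lintegral_mul_const _ (ENNReal.measurable_ofReal.comp (Continuous.measurable (by fun_prop)))

theorem pf_EXPU (hKPR : T_KPR) (hRNK : T_RNK) (hFUB : T_FUB) : T_EXPU := by
  intro d hd ι _ p q hc l hl c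
  obtain ⟨hrank, hcon⟩ := hRNK d d ι p q
  have hstep : ∫⁻ Y : E (d + d), GF (fun i => emb d (q i)) l c Y ≤
      ∫⁻ Y : E (d + d), GF (fun i => emb d (p i)) l c Y := by
    rw [GF_layer _ l hl, GF_layer _ l hl]
    refine lintegral_mono ?_
    intro t
    exact hKPR (d + d) (by omega) ι _ _ (hcon hc) (hrank.trans (by omega)) _
  rw [GF_fub hFUB, GF_fub hFUB] at hstep
  exact (ENNReal.mul_le_mul_iff_right (gauss_pos l) (gauss_fin l hl).ne).1 hstep

end Pool.Agent.H50.PK
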