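import Pool.Agent.H97.PK.Targets

set_option autoImplicit false

/-!
# A Gamma function bound
-/

open MeasureTheory Set Metric Real
open scoped ENNReal

namespace Pool.Agent.H50.PK

open Pool.Agent.H97.PK

theorem fact_le (k : ℕ) (hk : 1 ≤ k) :
    (k.factorial : ℝ) ≤ exp 1 * √(k : ℝ) * ((k : ℝ) / exp 1) ^ k := by
  obtain ⟨j, rfl⟩ : ∃ j, k = j + 1 := ⟨k - 1, by omega⟩
  have h1 : Stirling.stirlingSeq (j + 1) ≤ Stirling.stirlingSeq 1 :=
    Stirling.stirlingSeq'_antitone (Nat.zero_le j)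
  rw [Stirling.stirlingSeq_one, Stirling.stirlingSeq] at h1
  have hpos : (0 : ℝ) < ((j + 1 : ℕ) : ℝ) := by positivity
  have h2 : 0 < √(2 * ((j + 1 : ℕ) : ℝ)) * (((j + 1 : ℕ) : ℝ) / exp 1) ^ (j + 1) := by positivity
  rw [div_le_iff₀ h2] at h1
  refine h1.trans (le_of_eq ?_)
  rw [Real.sqrt_mul (by norm_num)]
  have h3 : √(2 : ℝ) ≠ 0 := by positivity
  field_simp

theorem even_case (k : ℕ) (hk : 1 ≤ k) :
    Gamma ((k : ℝ) + 1) * (exp 1 / k) ^ k ≤ exp 1 * √(k : ℝ) := by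
  rw [Real.Gamma_nat_eq_factorial]
  have hk0 : (0 : ℝ) < k := by exact_mod_cast hk
  have h1 := mul_le_mul_of_nonneg_right (fact_le k hk) (by positivity : 0 ≤ (exp 1 / (k : ℝ)) ^ k)
  refine h1.trans (le_of_eq ?_)
  have h2 : ((k : ℝ) / exp 1) ^ k * (exp 1 / k) ^ k = 1 := by
    rw [← mul_pow]
    have : (k : ℝ) / exp 1 * (exp 1 / k) = 1 := by field_simp
    rw [this, one_pow]
  rw [mul_assoc, h2, mul_one]

theorem odd_case (k : ℕ) (hk : 1 ≤ k) :
    Gamma ((k : ℝ) + 3 / 2) * ((exp 1 / ((k : ℝ) + 1 / 2)) ^ k * √(exp 1 / ((k : ℝ) + 1 / 2))) ≤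
      3 * √((k : ℝ) + 1 / 2) := by
  have hk0 : (1 : ℝ) ≤ k := by exact_mod_cast hk
  have he := Real.exp_one_lt_d9
  have he0 : 0 < exp 1 := exp_pos 1
  -- Gamma bound
  have hG : Gamma ((k : ℝ) + 3 / 2) ≤ (k.factorial : ℝ) * √((k : ℝ) + 1) := by
    have h1 := Real.Gamma_mul_add_mul_le_rpow_Gamma_mul_rpow_Gamma (s := (k : ℝ) + 1)
      (t := (k : ℝ) + 2) (a := 1 / 2) (b := 1 / 2) (by positivity) (by positivity) (by norm_num)
      (by norm_num) (by norm_num)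
    have h2 : (1 : ℝ) / 2 * ((k : ℝ) + 1) + 1 / 2 * ((k : ℝ) + 2) = (k : ℝ) + 3 / 2 := by ring
    rw [h2, Real.Gamma_nat_eq_factorial] at h1
    have h3 : Gamma ((k : ℝ) + 2) = ((k : ℝ) + 1) * k.factorial := by
      have h4 : (k : ℝ) + 2 = ((k : ℝ) + 1) + 1 := by ring
      rw [h4, Real.Gamma_add_one (by positivity), Real.Gamma_nat_eq_factorial]
    rw [h3, ← Real.sqrt_eq_rpow, ← Real.sqrt_eq_rpow] at h1
    refine h1.trans (le_of_eq ?_)
    rw [Real.sqrt_mul (by positivity)]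
    have h5 : √(k.factorial : ℝ) * √(k.factorial : ℝ) = k.factorial :=
      Real.mul_self_sqrt (by positivity)
    calc √(k.factorial : ℝ) * (√((k : ℝ) + 1) * √(k.factorial : ℝ))
        = (√(k.factorial : ℝ) * √(k.factorial : ℝ)) * √((k : ℝ) + 1) := by ring
      _ = _ := by rw [h5]
  have hG2 : Gamma ((k : ℝ) + 3 / 2) ≤
      exp 1 * √(k : ℝ) * ((k : ℝ) / exp 1) ^ k * √((k : ℝ) + 1) :=
    hG.trans (mul_le_mul_of_nonneg_right (fact_le k hk) (Real.sqrt_nonneg _))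
  have hB : ((k : ℝ) / exp 1) ^ k * (exp 1 / ((k : ℝ) + 1 / 2)) ^ k ≤ 2 / 3 := by
    rw [← mul_pow]
    have h1 : (k : ℝ) / exp 1 * (exp 1 / ((k : ℝ) + 1 / 2)) = (1 + 1 / (2 * (k : ℝ)))⁻¹ := by
      field_simp
    rw [h1, inv_pow]
    have h2 : 1 + (k : ℝ) * (1 / (2 * (k : ℝ))) ≤ (1 + 1 / (2 * (k : ℝ))) ^ k := by
      refine one_add_mul_le_pow ?_ k
      have : 0 ≤ 1 / (2 * (k : ℝ)) := by positivity
      linarith
    have h3 : (k : ℝ) * (1 / (2 * (k : ℝ))) = 1 / 2 := by field_simp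
    rw [h3] at h2
    have h4 : (0 : ℝ) < (1 + 1 / (2 * (k : ℝ))) ^ k := by positivity
    rw [inv_le_comm₀ h4 (by norm_num)]
    linarith
  have hS : √(k : ℝ) * √((k : ℝ) + 1) * √(exp 1 / ((k : ℝ) + 1 / 2)) ≤
      √(exp 1) * √((k : ℝ) + 1 / 2) := by
    rw [← Real.sqrt_mul (by positivity), ← Real.sqrt_mul (by positivity),
      ← Real.sqrt_mul (by positivity)]
    refine Real.sqrt_le_sqrt ?_
    rw [mul_div_assoc', div_le_iff₀ (by positivity)]
    nlinarith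
  have hE : exp 1 * √(exp 1) ≤ 9 / 2 := by
    have h1 : √(exp 1) ≤ 1.65 := by
      rw [Real.sqrt_le_left (by norm_num)]
      linarith
    nlinarith
  have hX : 0 ≤ (exp 1 / ((k : ℝ) + 1 / 2)) ^ k := by positivity
  have hs2 : 0 ≤ √((k : ℝ) + 1 / 2) := Real.sqrt_nonneg _
  calc Gamma ((k : ℝ) + 3 / 2) * ((exp 1 / ((k : ℝ) + 1 / 2)) ^ k * √(exp 1 / ((k : ℝ) + 1 / 2)))
      ≤ (exp 1 * √(k : ℝ) * ((k : ℝ) / exp 1) ^ k * √((k : ℝ) + 1)) *
        ((exp 1 / ((k : ℝ) + 1 / 2)) ^ k * √(exp 1 / ((k : ℝ) + 1 / 2))) :=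
        mul_le_mul_of_nonneg_right hG2 (by positivity)
    _ = exp 1 * (((k : ℝ) / exp 1) ^ k * (exp 1 / ((k : ℝ) + 1 / 2)) ^ k) *
        (√(k : ℝ) * √((k : ℝ) + 1) * √(exp 1 / ((k : ℝ) + 1 / 2))) := by ring
    _ ≤ exp 1 * (2 / 3) * (√(exp 1) * √((k : ℝ) + 1 / 2)) := by
        refine mul_le_mul (mul_le_mul_of_nonneg_left hB he0.le) hS (by positivity) (by positivity)
    _ = (exp 1 * √(exp 1)) * (2 / 3) * √((k : ℝ) + 1 / 2) := by ring
    _ ≤ (9 / 2) * (2 / 3) * √((k : ℝ) + 1 / 2) := by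
        refine mul_le_mul_of_nonneg_right ?_ hs2
        refine mul_le_mul_of_nonneg_right hE (by norm_num)
    _ = 3 * √((k : ℝ) + 1 / 2) := by ring

theorem pf_GAM : T_GAM := by
  intro m hm
  have he := Real.exp_one_lt_d9
  have he0 : 0 < exp 1 := exp_pos 1
  rcases Nat.even_or_odd' m with ⟨k, rfl | rfl⟩
  · have hk : 1 ≤ k := by omega
    have hk0 : (0 : ℝ) < k := by exact_mod_cast hk
    have h1 : (((2 * k : ℕ) : ℝ)) / 2 = k := by push_cast; ring
    have h2 : 2 * exp 1 / ((2 * k : ℕ) : ℝ) = exp 1 / k := by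
      push_cast
      field_simp
    rw [h1, h2, Real.rpow_natCast]
    refine (even_case k hk).trans ?_
    have := Real.sqrt_nonneg (k : ℝ)
    nlinarith
  · rcases Nat.eq_zero_or_pos k with rfl | hk
    · norm_num
      have hG : Gamma (3 / 2) = √π / 2 := by
        have h1 : (3 : ℝ) / 2 = 1 / 2 + 1 := by norm_num
        rw [h1, Real.Gamma_add_one (by norm_num), Real.Gamma_one_half_eq]
        ring
      rw [hG, ← Real.sqrt_eq_rpow]
      have hpi := Real.pi_lt_d2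
      have h1 : √π / 2 * √(2 * exp 1) = √(π * exp 1 / 2) := by
        rw [div_mul_eq_mul_div, ← Real.sqrt_mul pi_pos.le]
        have : π * (2 * exp 1) = (π * exp 1 / 2) * 4 := by ring
        rw [this, Real.sqrt_mul (by positivity)]
        have h4 : √(4 : ℝ) = 2 := by
          rw [show (4 : ℝ) = 2 ^ 2 by norm_num, Real.sqrt_sq (by norm_num)]
        rw [h4]
        ring
      rw [h1]
      rw [Real.sqrt_le_left (by positivity), mul_pow, inv_pow, Real.sq_sqrt (by norm_num)]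
      nlinarith [pi_pos]
    · have h1 : (((2 * k + 1 : ℕ) : ℝ)) / 2 = k + 1 / 2 := by push_cast; ring
      have h2 : 2 * exp 1 / ((2 * k + 1 : ℕ) : ℝ) = exp 1 / ((k : ℝ) + 1 / 2) := by
        push_cast
        field_simp
      have hk0 : (0 : ℝ) < k := by exact_mod_cast hk
      rw [h1, h2, Real.rpow_add (by positivity), Real.rpow_natCast, ← Real.sqrt_eq_rpow]
      have h3 : (k : ℝ) + 1 / 2 + 1 = k + 3 / 2 := by ring
      rw [h3]
      exact odd_case k hk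

end Pool.Agent.H50.PK
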