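import Pool.Agent.H97.PK.Targets
import Pool.Agent.H65k.Final

set_option autoImplicit false

/-!
# The union inequality for pairs of joint rank at most `D + 2`
-/

open MeasureTheory Set Metric
open scoped ENNReal

namespace Pool.Agent.H50.PK

open Pool.Agent.H97.PK

theorem lev_eq {D n : ℕ} (q : Fin n → E D) (r : Fin n → ℝ) :
    {x : E D | 0 + 1 ≤ (Finset.univ.filter (fun i => dist x (q i) ≤ r i)).card} =
      ⋃ i, closedBall (q i) (r i) := by
  ext x
  simp only [Set.mem_ofPred_eq, zero_add, Nat.one_le_iff_ne_zero, ne_eq, Finset.card_eq_zero,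
    mem_iUnion, mem_closedBall]
  constructor
  · intro h
    obtain ⟨i, hi⟩ := Finset.nonempty_iff_ne_empty.2 h
    exact ⟨i, (Finset.mem_filter.1 hi).2⟩
  · rintro ⟨i, hi⟩
    exact Finset.nonempty_iff_ne_empty.1 ⟨i, Finset.mem_filter.2 ⟨Finset.mem_univ _, hi⟩⟩

theorem union_lt_top {D n : ℕ} (q : Fin n → E D) (r : Fin n → ℝ) :
    volume (⋃ i, closedBall (q i) (r i)) < ⊤ := by
  refine (measure_iUnion_fintype_le _ _).trans_lt ?_
  exact ENNReal.sum_lt_top.2 fun i _ => measure_closedBall_lt_top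

theorem fin_case {D n : ℕ} (p q : Fin n → E D) (hc : ∀ i j, dist (q i) (q j) ≤ dist (p i) (p j))
    (hr : Module.finrank ℝ (vectorSpan ℝ (range fun i => (p i, q i))) ≤ D + 2)
    (r : Fin n → ℝ) (hpos : ∀ i, 0 < r i) :
    volume (⋃ i, closedBall (q i) (r i)) ≤ volume (⋃ i, closedBall (p i) (r i)) := by
  rcases n with _ | m
  · simp
  let τ : Fin (m + 1) → ℝ := fun k => if k = 0 then 1 else 0
  have hτ : Antitone τ := by
    intro a b hab
    simp only [τ]
    by_cases hb : b = 0
    · have ha : a = 0 := by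
        rw [hb] at hab
        exact Fin.le_zero_iff.1 hab
      rw [if_pos hb, if_pos ha]
    · rw [if_neg hb]
      split_ifs <;> norm_num
  have h := Pool.Agent.H65k.kneser_main D (m + 1) p q r hpos hc (Or.inr (Or.inr (Or.inl hr))) τ hτ
  rw [Fin.sum_univ_succ, Fin.sum_univ_succ] at h
  have h0 : τ 0 = 1 := if_pos rfl
  have hs : ∀ k : Fin m, τ k.succ = 0 := fun k => if_neg (Fin.succ_ne_zero k)
  simp only [h0, hs, zero_mul, Finset.sum_const_zero, add_zero, one_mul] at h
  have e1 := lev_eq q r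
  have e2 := lev_eq p r
  simp only [Fin.val_zero] at h
  rw [e1, e2] at h
  exact (ENNReal.toReal_le_toReal (union_lt_top q r).ne (union_lt_top p r).ne).1 h

theorem pf_KPR : T_KPR := by
  intro D hD ι _ p q hc hr r
  classical
  have : Nonempty (Fin D) := ⟨⟨0, hD⟩⟩
  let e : Fin (Fintype.card {i : ι // 0 < r i}) → ι := fun k => ((Fintype.equivFin _).symm k).1
  have hrank : Module.finrank ℝ (vectorSpan ℝ (range fun k => (p (e k), q (e k)))) ≤ D + 2 := by
    refine le_trans (Submodule.finrank_mono (vectorSpan_mono ℝ ?_)) hr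
    rintro _ ⟨k, rfl⟩
    exact ⟨e k, rfl⟩
  have h1 := fin_case (fun k => p (e k)) (fun k => q (e k)) (fun i j => hc (e i) (e j)) hrank
    (fun k => r (e k)) (fun k => ((Fintype.equivFin _).symm k).2)
  have hsub : (⋃ i, closedBall (q i) (r i)) ⊆
      (⋃ k, closedBall (q (e k)) (r (e k))) ∪ range q := by
    intro x hx
    obtain ⟨i, hi⟩ := mem_iUnion.1 hx
    by_cases hri : 0 < r i
    · left
      refine mem_iUnion.2 ⟨Fintype.equivFin _ ⟨i, hri⟩, ?_⟩
      simpa [e] using hi
    · right
      have h2 : dist x (q i) ≤ 0 := (mem_closedBall.1 hi).trans (not_lt.1 hri)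
      have h3 : x = q i := dist_le_zero.1 h2
      exact ⟨i, h3.symm⟩
  have hnull : volume (range q) = 0 := (finite_range q).measure_zero volume
  have h2 : vU q r ≤ volume (⋃ k, closedBall (q (e k)) (r (e k))) := by
    calc vU q r ≤ volume ((⋃ k, closedBall (q (e k)) (r (e k))) ∪ range q) := measure_mono hsub
      _ ≤ volume (⋃ k, closedBall (q (e k)) (r (e k))) + volume (range q) := measure_union_le _ _
      _ = volume (⋃ k, closedBall (q (e k)) (r (e k))) := by rw [hnull, add_zero]
  have h3 : volume (⋃ k, closedBall (p (e k)) (r (e k))) ≤ vU p r := by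
    refine measure_mono ?_
    intro x hx
    obtain ⟨k, hk⟩ := mem_iUnion.1 hx
    exact mem_iUnion.2 ⟨e k, hk⟩
  exact h2.trans (h1.trans h3)

end Pool.Agent.H50.PK
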